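import Pool.Agent.H12.UCR.Stmts

set_option autoImplicit false

namespace Pool.UCR

theorem cvx_thm (hN : NRMS) (hR : REPS) (hT : TWOS) : CVXS := by
  intro p hp x hx y hy s t hs ht hst m η hη
  obtain ⟨L1, hL1, a, ha, hA⟩ := hx m (η / 4) (by positivity)
  obtain ⟨L2, hL2, b, hb, hB⟩ := hy m (η / 4) (by positivity)
  obtain ⟨a', ha', hA'⟩ := hR p L1 L2 a hp hL1 hL2 ha
  obtain ⟨b', hb', hB'⟩ := hR p L2 L1 b hp hL2 hL1 hb
  rw [Nat.mul_comm L2 L1] at hb' hB'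
  have hL : 1 ≤ L1 * L2 := Nat.mul_pos hL1 hL2
  obtain ⟨K, hK⟩ := exists_nat_gt (2 * (13 * (m : ℝ) + 4) / η)
  have hm0 : (0 : ℝ) ≤ m := Nat.cast_nonneg m
  have hKpos : (0 : ℝ) < K := lt_of_le_of_lt (by positivity) hK
  obtain ⟨n1, hn1⟩ : ∃ n1, n1 = ⌊s * (K : ℝ)⌋₊ + 1 := ⟨_, rfl⟩
  obtain ⟨n2, hn2⟩ : ∃ n2, n2 = ⌊t * (K : ℝ)⌋₊ + 1 := ⟨_, rfl⟩
  obtain ⟨c, hc, hC⟩ := hT p (L1 * L2) n1 n2 a' b' hp hL (by omega) (by omega) ha' hb'
  refine ⟨L1 * L2 * (n1 + n2), Nat.mul_pos hL (by omega), c, hc, ?_⟩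
  intro j hj
  have hsK : 0 ≤ s * (K : ℝ) := by positivity
  have htK : 0 ≤ t * (K : ℝ) := by positivity
  have f1 := Nat.floor_le hsK
  have f2 := Nat.lt_floor_add_one (s * (K : ℝ))
  have f3 := Nat.floor_le htK
  have f4 := Nat.lt_floor_add_one (t * (K : ℝ))
  have g1 : (n1 : ℝ) = (⌊s * (K : ℝ)⌋₊ : ℝ) + 1 := by rw [hn1]; push_cast; ring
  have g2 : (n2 : ℝ) = (⌊t * (K : ℝ)⌋₊ : ℝ) + 1 := by rw [hn2]; push_cast; ring
  have hsum : s * (K : ℝ) + t * (K : ℝ) = K := by rw [← add_mul, hst, one_mul]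
  have hnK : (K : ℝ) < (n1 : ℝ) + n2 := by linarith
  have hnK2 : (n1 : ℝ) + n2 ≤ K + 2 := by linarith
  have hn0 : (0 : ℝ) < (n1 : ℝ) + n2 := lt_trans hKpos hnK
  have hs1 : s ≤ 1 := by linarith
  have hd : |(n1 : ℝ) / ((n1 : ℝ) + n2) - s| ≤ 2 / K := by
    have e : (n1 : ℝ) / ((n1 : ℝ) + n2) - s = ((n1 : ℝ) - s * ((n1 : ℝ) + n2)) / ((n1 : ℝ) + n2) := by
      field_simp
    rw [e, abs_div, abs_of_pos hn0]
    have h5 : |(n1 : ℝ) - s * ((n1 : ℝ) + n2)| ≤ 2 := by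
      have h6 : 0 ≤ s * ((n1 : ℝ) + n2 - K) := mul_nonneg hs (by linarith)
      have h7 : s * ((n1 : ℝ) + n2 - K) ≤ 1 * 2 :=
        mul_le_mul hs1 (by linarith) (by linarith) (by norm_num)
      rw [abs_le]
      constructor
      · nlinarith
      · nlinarith
    exact div_le_div₀ (by norm_num) h5 hKpos hnK.le
  have hA1 := hN p (L1 * L2) a' j
  have hB1 := hN p (L1 * L2) b' j
  have hA2 := hA j hj
  have hB2 := hB j hj
  rw [← hA' j] at hA2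
  rw [← hB' j] at hB2
  have hC1 := hC j
  obtain ⟨A, hAe⟩ : ∃ A, A = S p (L1 * L2) a' j := ⟨_, rfl⟩
  obtain ⟨B, hBe⟩ : ∃ B, B = S p (L1 * L2) b' j := ⟨_, rfl⟩
  obtain ⟨C, hCe⟩ : ∃ C, C = S p (L1 * L2 * (n1 + n2)) c j := ⟨_, rfl⟩
  rw [← hAe] at hA1 hA2 hC1
  rw [← hBe] at hB1 hB2 hC1
  rw [← hCe] at hC1
  rw [← hCe]
  have hgoal : (s • x + t • y) j = (s : ℂ) * x j + (t : ℂ) * y j := by
    simp only [Pi.add_apply, Pi.smul_apply, Complex.real_smul]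
  rw [hgoal]
  have hnC : ((n1 : ℂ) + n2) ≠ 0 := by
    have : (((n1 : ℝ) + n2 : ℝ) : ℂ) ≠ 0 := by exact_mod_cast hn0.ne'
    intro h
    apply this
    push_cast
    exact h
  have htC : (t : ℂ) = 1 - (s : ℂ) := by
    have : t = 1 - s := by linarith
    rw [this]
    push_cast
    ring
  have e1 : ((n1 : ℂ) * A + (n2 : ℂ) * B) / ((n1 : ℂ) + n2) - ((s : ℂ) * A + (t : ℂ) * B) =
      (((n1 : ℝ) / ((n1 : ℝ) + n2) - s : ℝ) : ℂ) * (A - B) := by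
    rw [htC]
    push_cast
    field_simp
    ring
  have n1' : ‖((n1 : ℂ) * A + (n2 : ℂ) * B) / ((n1 : ℂ) + n2) - ((s : ℂ) * A + (t : ℂ) * B)‖ ≤
      2 / K * 2 := by
    rw [e1, norm_mul, Complex.norm_real, Real.norm_eq_abs]
    have h8 : ‖A - B‖ ≤ 2 := (norm_sub_le A B).trans (by linarith)
    exact mul_le_mul hd h8 (norm_nonneg _) (by positivity)
  have n2' : ‖(s : ℂ) * (A - x j) + (t : ℂ) * (B - y j)‖ ≤ η / 4 := by
    refine (norm_add_le _ _).trans ?_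
    rw [norm_mul, norm_mul, Complex.norm_real, Complex.norm_real, Real.norm_eq_abs, Real.norm_eq_abs,
      abs_of_nonneg hs, abs_of_nonneg ht]
    have h9 : s * ‖A - x j‖ ≤ s * (η / 4) := mul_le_mul_of_nonneg_left hA2.le hs
    have h10 : t * ‖B - y j‖ ≤ t * (η / 4) := mul_le_mul_of_nonneg_left hB2.le ht
    have h11 : s * (η / 4) + t * (η / 4) = η / 4 := by rw [← add_mul, hst, one_mul]
    linarith
  have hj' : (j : ℝ) ≤ m := by exact_mod_cast hj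
  have n3' : (13 : ℝ) * j / ((L1 * L2 : ℕ) * ((n1 : ℝ) + n2)) ≤ 13 * m / K := by
    have hL' : (1 : ℝ) ≤ ((L1 * L2 : ℕ) : ℝ) := by exact_mod_cast hL
    apply div_le_div₀ (by positivity) (by linarith) hKpos
    nlinarith
  have key : C - ((s : ℂ) * x j + (t : ℂ) * y j) =
      (C - ((n1 : ℂ) * A + (n2 : ℂ) * B) / ((n1 : ℂ) + n2)) +
      (((n1 : ℂ) * A + (n2 : ℂ) * B) / ((n1 : ℂ) + n2) - ((s : ℂ) * A + (t : ℂ) * B)) +
      ((s : ℂ) * (A - x j) + (t : ℂ) * (B - y j)) := by ring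
  have hsmall : (13 * (m : ℝ) + 4) / K < η / 2 := by
    rw [div_lt_iff₀ hη] at hK
    rw [div_lt_div_iff₀ hKpos (by norm_num)]
    linarith
  have hsplit : (13 * (m : ℝ) + 4) / K = 13 * m / K + 2 / K * 2 := by
    field_simp
    ring
  rw [key]
  calc ‖_‖ ≤ ‖C - ((n1 : ℂ) * A + (n2 : ℂ) * B) / ((n1 : ℂ) + n2)‖ +
      ‖((n1 : ℂ) * A + (n2 : ℂ) * B) / ((n1 : ℂ) + n2) - ((s : ℂ) * A + (t : ℂ) * B)‖ +
      ‖(s : ℂ) * (A - x j) + (t : ℂ) * (B - y j)‖ := by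
        refine (norm_add_le _ _).trans ?_
        gcongr
        exact norm_add_le _ _
    _ < η := by
        have h12 := hC1
        push_cast at h12 n3'
        linarith

end Pool.UCR
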